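import Pool.Agent.L0h28.TD.Tate

/-! MP_b74fdd_ag: abelian varieties with split totally multiplicative reduction, given by their
Tate-Mumford-Gerritzen uniformisation, their endomorphism rings, their Galois modules `V_p(A)`, and
the natural map `End(A) ⊗ ℚ_p → End_G(V_p(A))` -/

set_option autoImplicit false
open scoped TensorProduct

namespace Pool.Agent.L0h28.TD

noncomputable section

/-- the points `(L^×)^g` of the split torus `T = 𝔾_m^g` over the field `L`, written additively -/
abbrev Tor (g : ℕ) (L : Type*) [Field L] : Type _ := Fin g → Additive Lˣ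

/-- the map `T(K) → T(L)` induced by a homomorphism of fields `K → L` -/
def Tor.map {g : ℕ} {K L : Type*} [Field K] [Field L] (f : K →+* L) : Tor g K →+ Tor g L :=
  (Units.map (f : K →* L)).toAdditive.compLeft (Fin g)

theorem mact_zero {g : ℕ} {M : Type*} [AddCommGroup M] (γ : Matrix (Fin g) (Fin g) ℤ) :
    (fun i => ∑ j, γ i j • (0 : Fin g → M) j) = 0 := by
  funext i
  simp

theorem mact_add {g : ℕ} {M : Type*} [AddCommGroup M] (γ : Matrix (Fin g) (Fin g) ℤ)
    (z w : Fin g → M) : (fun i => ∑ j, γ i j • (z + w) j) =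
      (fun i => ∑ j, γ i j • z j) + fun i => ∑ j, γ i j • w j := by
  funext i
  simp [smul_add, Finset.sum_add_distrib]

/-- the endomorphism `(z_j)_j ↦ (∏_j z_j ^ γ_{ij})_i` of the torus `T = 𝔾_m^g` on points, written
additively; `End(T)` is the ring of the integral `g × g` matrices -/
def mact {g : ℕ} {M : Type*} [AddCommGroup M] (γ : Matrix (Fin g) (Fin g) ℤ) :
    (Fin g → M) →+ (Fin g → M) where
  toFun z i := ∑ j, γ i j • z j
  map_zero' := mact_zero γ
  map_add' := mact_add γ

theorem mact_apply {g : ℕ} {M : Type*} [AddCommGroup M] (γ : Matrix (Fin g) (Fin g) ℤ)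
    (z : Fin g → M) (i : Fin g) : mact γ z i = ∑ j, γ i j • z j := rfl

theorem map_mact {g : ℕ} {K L : Type*} [Field K] [Field L] (f : K →+* L)
    (γ : Matrix (Fin g) (Fin g) ℤ) (z : Tor g K) :
    Tor.map f (mact γ z) = mact γ (Tor.map f z) := by
  funext i
  show (Units.map (f : K →* L)).toAdditive (∑ j, γ i j • z j) = _
  rw [map_sum]
  exact Finset.sum_congr rfl fun j _ => map_zsmul _ _ _

/-- **Abelian varieties with split totally multiplicative reduction** over a finite extension `K` of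
`ℚ_p`, given by their Tate-Mumford-Gerritzen uniformisation `A = T / Λ`, `T = 𝔾_m^g`: the rows of
`per` are a basis of the lattice `Λ ⊂ T(K)`, and the rows of `pol` give a polarisation, that is a
homomorphism `Λ → Hom(T, 𝔾_m) = ℤ^g` such that the pairing `Λ × Λ → K^×` is symmetric and
`|⟨λ, λ⟩| < 1` for `λ ≠ 0` (the Riemann conditions) -/
structure UAV (p : ℕ) [Fact p.Prime] (K : Type*) [Field K] [Algebra ℚ_[p] K] (g : ℕ) where
  /-- the period matrix -/
  per : Fin g → Fin g → Kˣ
  /-- the polarisation -/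
  pol : Matrix (Fin g) (Fin g) ℤ
  /-- the pairing is symmetric -/
  symm : ∀ i j, ∏ k, per i k ^ pol j k = ∏ k, per j k ^ pol i k
  /-- the pairing is positive definite -/
  pos : ∀ c : Fin g → ℤ, c ≠ 0 → ‖Algebra.norm ℚ_[p]
    (((∏ i, ∏ j, (∏ k, per i k ^ pol j k) ^ (c i * c j) : Kˣ)) : K)‖ < 1

namespace UAV

variable {p : ℕ} [Fact p.Prime] {K : Type*} [Field K] [Algebra ℚ_[p] K] {g : ℕ} (A : UAV p K g)

/-- the lattice `Λ ⊂ T(K)` -/
def lat : AddSubgroup (Tor g K) :=
  AddSubgroup.closure (Set.range fun i => fun j => Additive.ofMul (A.per i j))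

/-- the image of the lattice in `T(L)` -/
def latL (L : Type*) [Field L] [Algebra K L] : AddSubgroup (Tor g L) :=
  A.lat.map (Tor.map (algebraMap K L))

/-- the group `A(L) = T(L) / Λ` of the points of `A` over an extension `L` of `K` -/
def Pts (L : Type*) [Field L] [Algebra K L] : Type _ := Tor g L ⧸ A.latL L

instance (L : Type*) [Field L] [Algebra K L] : AddCommGroup (A.Pts L) :=
  QuotientAddGroup.Quotient.addCommGroup (A.latL L)

/-- the projection `T(L) → A(L)` -/
def pr (L : Type*) [Field L] [Algebra K L] : Tor g L →+ A.Pts L := QuotientAddGroup.mk' (A.latL L)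

theorem pr_surj {L : Type*} [Field L] [Algebra K L] (x : A.Pts L) : ∃ z, A.pr L z = x :=
  QuotientAddGroup.mk'_surjective (A.latL L) x

theorem pr_eq_zero {L : Type*} [Field L] [Algebra K L] {z : Tor g L} :
    A.pr L z = 0 ↔ z ∈ A.latL L := QuotientAddGroup.eq_zero_iff z

/-- the endomorphism of `A(L)` induced by an endomorphism of `T(L)` which preserves `Λ` -/
def desc {L : Type*} [Field L] [Algebra K L] (f : Tor g L →+ Tor g L)
    (h : ∀ z ∈ A.latL L, f z ∈ A.latL L) : A.Pts L →+ A.Pts L :=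
  QuotientAddGroup.map (A.latL L) (A.latL L) f h

theorem desc_pr {L : Type*} [Field L] [Algebra K L] (f : Tor g L →+ Tor g L)
    (h : ∀ z ∈ A.latL L, f z ∈ A.latL L) (z : Tor g L) : A.desc f h (A.pr L z) = A.pr L (f z) := rfl

theorem latL_gal {L : Type*} [Field L] [Algebra K L] (σ : L ≃ₐ[K] L) :
    ∀ z ∈ A.latL L, Tor.map (σ : L →+* L) z ∈ A.latL L := by
  rintro _ ⟨z, hz, rfl⟩
  refine ⟨z, hz, ?_⟩
  funext i
  apply Additive.toMul.injective
  apply Units.ext
  show algebraMap K L _ = σ (algebraMap K L _)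
  rw [AlgEquiv.commutes]

/-- the Galois group acts on the points -/
def gal {L : Type*} [Field L] [Algebra K L] (σ : L ≃ₐ[K] L) : A.Pts L →+ A.Pts L :=
  A.desc (Tor.map (σ : L →+* L)) (A.latL_gal σ)

theorem gal_pr {L : Type*} [Field L] [Algebra K L] (σ : L ≃ₐ[K] L) (z : Tor g L) :
    A.gal σ (A.pr L z) = A.pr L (Tor.map (σ : L →+* L) z) := rfl

/-- `γ ∈ End(A)`: the endomorphisms of `A` defined over `K` are the endomorphisms of the torus `T`
which preserve `Λ` -/
def IsEnd (γ : Matrix (Fin g) (Fin g) ℤ) : Prop := ∀ z ∈ A.lat, mact γ z ∈ A.lat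

theorem latL_end (L : Type*) [Field L] [Algebra K L] (γ : Matrix (Fin g) (Fin g) ℤ)
    (h : A.IsEnd γ) : ∀ z ∈ A.latL L, mact γ z ∈ A.latL L := by
  rintro _ ⟨z, hz, rfl⟩
  exact ⟨_, h z hz, map_mact _ _ _⟩

/-- the ring `End(A)` (as a set) -/
def EndA : Type := {γ : Matrix (Fin g) (Fin g) ℤ // A.IsEnd γ}

/-- the action of `End(A)` on the points -/
def endPts (L : Type*) [Field L] [Algebra K L] (γ : A.EndA) : A.Pts L →+ A.Pts L :=
  A.desc (mact γ.1) (A.latL_end L γ.1 γ.2)

/-- `V_p(A) = T_p(A) ⊗ ℚ_p`, from the points of `A` over `L` -/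
def V (L : Type*) [Field L] [Algebra K L] : Type _ := ℚ_[p] ⊗[ℤ_[p]] Tate p (A.Pts L)

instance (L : Type*) [Field L] [Algebra K L] : AddCommGroup (A.V L) := TensorProduct.addCommGroup

instance (L : Type*) [Field L] [Algebra K L] : Module ℚ_[p] (A.V L) := TensorProduct.leftModule

/-- an additive map `f : A(L) → A(L)` induces a `ℚ_p`-linear map `V_p(f)` -/
def vmap {L : Type*} [Field L] [Algebra K L] (f : A.Pts L →+ A.Pts L) :
    A.V L →ₗ[ℚ_[p]] A.V L := (Tate.map f).baseChange ℚ_[p]

/-- the endomorphism `F` of `V_p(A)` commutes with the Galois group -/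
def IsGal {L : Type*} [Field L] [Algebra K L] (F : A.V L →ₗ[ℚ_[p]] A.V L) : Prop :=
  ∀ (σ : L ≃ₐ[K] L) (v : A.V L), F (A.vmap (A.gal σ) v) = A.vmap (A.gal σ) (F v)

/-- the endomorphism `F` of `V_p(A)` is in the image of the natural map from `End(A) ⊗ ℚ_p`: it is
the image `∑ s_i V_p(γ_i)` of some `∑ γ_i ⊗ s_i` -/
def InImage {L : Type*} [Field L] [Algebra K L] (F : A.V L →ₗ[ℚ_[p]] A.V L) : Prop :=
  ∃ (n : ℕ) (s : Fin n → ℚ_[p]) (γ : Fin n → A.EndA),
    ∀ v, F v = ∑ i, s i • A.vmap (A.endPts L (γ i)) v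

/-- **the assertion of Q1 for `A`** (surjectivity): the natural map `End(A) ⊗ ℚ_p → End_G(V_p(A))` is
surjective -/
def NatSurjective : Prop := ∀ F : A.V (AlgebraicClosure K) →ₗ[ℚ_[p]] A.V (AlgebraicClosure K),
  A.IsGal F → A.InImage F

end UAV

end

end Pool.Agent.L0h28.TD
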