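import Mathlib

/-! MP_b74fdd_ag: the `p`-adic powers `(1 + p) ^ x` -/

set_option autoImplicit false
open Filter Topology

namespace Pool.Agent.L0h28.TD

noncomputable section

variable (p : ℕ) [hp : Fact p.Prime]

theorem p_tendsto : Tendsto ((p : ℤ_[p]) ^ ·) atTop (𝓝 0) :=
  tendsto_pow_atTop_nhds_zero_of_norm_lt_one (by
    rw [PadicInt.norm_p]
    exact inv_lt_one_of_one_lt₀ (by exact_mod_cast hp.out.one_lt))

/-- the character `x ↦ (1 + p) ^ x` -/
def kap : AddChar ℤ_[p] ℤ_[p] := PadicInt.addChar_of_value_at_one (p : ℤ_[p]) (p_tendsto p)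

theorem kap_cont : Continuous (kap p) :=
  PadicInt.continuous_addChar_of_value_at_one (p_tendsto p)

theorem kap_one : kap p 1 = 1 + p := PadicInt.addChar_of_value_at_one_def (p_tendsto p)

theorem kap_nat (n : ℕ) : kap p n = (1 + p) ^ n := by
  rw [← kap_one, ← AddChar.map_nsmul_eq_pow]
  simp

theorem kap_inv (x : ℤ_[p]) : kap p x * kap p (-x) = 1 := by
  rw [← AddChar.map_add_eq_mul, add_neg_cancel, AddChar.map_zero_eq_one]

theorem kap_inj {x : ℤ_[p]} (h : kap p x = 1) : x = 0 := by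
  by_contra hx
  have h1 : ∀ n : ℕ, kap p (n * x) = 1 := by
    intro n
    rw [← nsmul_eq_mul, AddChar.map_nsmul_eq_pow, h, one_pow]
  have h2 : ∀ y : ℤ_[p], kap p (y * x) = 1 := by
    have hc : Continuous fun y : ℤ_[p] => kap p (y * x) :=
      (kap_cont p).comp (continuous_id.mul continuous_const)
    have := PadicInt.denseRange_natCast (p := p)
    exact fun y => congrFun (this.equalizer hc continuous_const (funext h1)) y
  have h3 := h2 (((PadicInt.unitCoeff hx)⁻¹ : ℤ_[p]ˣ) : ℤ_[p])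
  have h4 := PadicInt.unitCoeff_spec hx
  have h5 : (((PadicInt.unitCoeff hx)⁻¹ : ℤ_[p]ˣ) : ℤ_[p]) * x = ((p ^ x.valuation : ℕ) : ℤ_[p]) := by
    rw [Units.inv_mul_eq_iff_eq_mul, Nat.cast_pow]
    exact h4
  rw [h5, kap_nat] at h3
  have h6 : ((1 + p) ^ (p ^ x.valuation) : ℕ) = 1 := by
    have h7 : (((1 + p) ^ (p ^ x.valuation) : ℕ) : ℤ_[p]) = ((1 : ℕ) : ℤ_[p]) := by
      push_cast
      exact h3
    exact_mod_cast h7
  have h8 : 1 < (1 + p) ^ (p ^ x.valuation) :=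
    Nat.one_lt_pow (pow_ne_zero _ hp.out.ne_zero) (by have := hp.out.pos; omega)
  omega

/-- `x ↦ (1 + p) ^ x`, from `ℤ_p` to the units of `ℚ_p` (written additively) -/
def EE : ℤ_[p] →+ Additive ℚ_[p]ˣ where
  toFun x := Additive.ofMul
    { val := ((kap p x : ℤ_[p]) : ℚ_[p])
      inv := ((kap p (-x) : ℤ_[p]) : ℚ_[p])
      val_inv := by
        rw [← PadicInt.coe_mul, kap_inv, PadicInt.coe_one]
      inv_val := by
        rw [mul_comm, ← PadicInt.coe_mul, kap_inv, PadicInt.coe_one] }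
  map_zero' := by
    apply Additive.toMul.injective
    apply Units.ext
    show ((kap p 0 : ℤ_[p]) : ℚ_[p]) = 1
    rw [AddChar.map_zero_eq_one, PadicInt.coe_one]
  map_add' x y := by
    apply Additive.toMul.injective
    apply Units.ext
    show ((kap p (x + y) : ℤ_[p]) : ℚ_[p]) = ((kap p x : ℤ_[p]) : ℚ_[p]) * ((kap p y : ℤ_[p]) : ℚ_[p])
    rw [AddChar.map_add_eq_mul, PadicInt.coe_mul]

theorem EE_val (x : ℤ_[p]) : (((EE p x).toMul : ℚ_[p]ˣ) : ℚ_[p]) = ((kap p x : ℤ_[p]) : ℚ_[p]) := rfl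

theorem EE_norm (x : ℤ_[p]) : ‖(((EE p x).toMul : ℚ_[p]ˣ) : ℚ_[p])‖ = 1 := by
  rw [EE_val, ← PadicInt.norm_def]
  exact PadicInt.isUnit_iff.1 (IsUnit.of_mul_eq_one _ (kap_inv p x))

theorem EE_inj {x : ℤ_[p]} (h : EE p x = 0) : x = 0 := by
  apply kap_inj
  have h1 : (((EE p x).toMul : ℚ_[p]ˣ) : ℚ_[p]) = 1 := by
    rw [h]
    rfl
  rw [EE_val] at h1
  exact Subtype.ext h1

/-- `p` as a unit of `ℚ_p` (written additively) -/
def PP : Additive ℚ_[p]ˣ := Additive.ofMul (Units.mk0 (p : ℚ_[p]) (by exact_mod_cast hp.out.ne_zero))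

theorem PP_norm (a : ℤ) (x : ℤ_[p]) :
    ‖(((a • PP p + EE p x).toMul : ℚ_[p]ˣ) : ℚ_[p])‖ = (p : ℝ) ^ (-a) := by
  have h1 : (((a • PP p + EE p x).toMul : ℚ_[p]ˣ) : ℚ_[p]) =
      (p : ℚ_[p]) ^ a * (((EE p x).toMul : ℚ_[p]ˣ) : ℚ_[p]) := by
    rw [toMul_add, toMul_zsmul, Units.val_mul, Units.val_zpow_eq_zpow_val]
    rfl
  rw [h1, norm_mul, EE_norm, mul_one, norm_zpow, Padic.norm_p, inv_zpow, zpow_neg]

theorem PE_zero {a : ℤ} {x : ℤ_[p]} (h : a • PP p + EE p x = 0) : a = 0 ∧ x = 0 := by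
  have h1 := PP_norm p a x
  rw [h] at h1
  have h2 : (((0 : Additive ℚ_[p]ˣ).toMul : ℚ_[p]ˣ) : ℚ_[p]) = 1 := rfl
  rw [h2, norm_one] at h1
  have hp1 : (1 : ℝ) < p := by exact_mod_cast hp.out.one_lt
  have h3 : -a = 0 := by
    have h4 : (p : ℝ) ^ (-a) = (p : ℝ) ^ (0 : ℤ) := by
      rw [← h1, zpow_zero]
    exact zpow_right_injective₀ (by linarith) hp1.ne' h4
  have ha : a = 0 := by omega
  refine ⟨ha, EE_inj p ?_⟩
  rw [ha, zero_smul, zero_add] at h
  exact h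

theorem PE_inj {a b : ℤ} {x y : ℤ_[p]} (h : a • PP p + EE p x = b • PP p + EE p y) :
    a = b ∧ x = y := by
  have h1 : (a - b) • PP p + EE p (x - y) = 0 := by
    rw [sub_smul, map_sub]
    have : a • PP p - b • PP p + (EE p x - EE p y) =
        (a • PP p + EE p x) - (b • PP p + EE p y) := by abel
    rw [this, h, sub_self]
  obtain ⟨h2, h3⟩ := PE_zero p h1
  exact ⟨sub_eq_zero.1 h2, sub_eq_zero.1 h3⟩

end

end Pool.Agent.L0h28.TD
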