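import Pool.Agent.L0h28.TD.Defs
import Pool.Agent.L0h28.TD.Exp

/-! MP_b74fdd_ag: the abelian varieties over `ℚ_p` with period matrix `p ^ 1 · (1 + p) ^ M` -/

set_option autoImplicit false
open scoped TensorProduct

namespace Pool.Agent.L0h28.TD

noncomputable section

variable {p : ℕ} [hp : Fact p.Prime] {g : ℕ}

/-- integral matrices as `p`-adic matrices -/
def im (γ : Matrix (Fin g) (Fin g) ℤ) : Matrix (Fin g) (Fin g) ℤ_[p] :=
  (Int.castRingHom ℤ_[p]).mapMatrix γ

/-- integral vectors as `p`-adic vectors -/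
def iv : (Fin g → ℤ) →+ (Fin g → ℤ_[p]) := (Int.castAddHom ℤ_[p]).compLeft (Fin g)

theorem iv_apply (c : Fin g → ℤ) (i : Fin g) : (iv c : Fin g → ℤ_[p]) i = (c i : ℤ_[p]) := rfl

theorem im_apply (γ : Matrix (Fin g) (Fin g) ℤ) (i j : Fin g) :
    (im γ : Matrix (Fin g) (Fin g) ℤ_[p]) i j = (γ i j : ℤ_[p]) := rfl

theorem im_mulVec (γ : Matrix (Fin g) (Fin g) ℤ) (c : Fin g → ℤ) :
    (im γ : Matrix (Fin g) (Fin g) ℤ_[p]).mulVec (iv c) = iv (γ.mulVec c) := by
  funext i
  rw [iv_apply]
  simp only [Matrix.mulVec, dotProduct, im_apply, iv_apply]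
  push_cast
  rfl

/-- vectors of powers of `1 + p` -/
def EV : (Fin g → ℤ_[p]) →+ Tor g ℚ_[p] := (EE p).compLeft (Fin g)

theorem EV_apply (v : Fin g → ℤ_[p]) (i : Fin g) : EV v i = EE p (v i) := rfl

theorem EV_zero_iff {v : Fin g → ℤ_[p]} (h : EV v = 0) : v = 0 := by
  funext i
  exact EE_inj p (congrFun h i)

variable (M : Matrix (Fin g) (Fin g) ℤ_[p])

/-- the lattice -/
def lam : (Fin g → ℤ) →+ Tor g ℚ_[p] where
  toFun c i := c i • PP p + EE p (M.mulVec (iv c) i)
  map_zero' := by
    funext i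
    simp
  map_add' c d := by
    funext i
    show (c i + d i) • PP p + EE p (M.mulVec (iv (c + d)) i) =
      (c i • PP p + EE p (M.mulVec (iv c) i)) + (d i • PP p + EE p (M.mulVec (iv d) i))
    rw [map_add, Matrix.mulVec_add, Pi.add_apply, map_add, add_zsmul]
    abel

theorem lam_apply (c : Fin g → ℤ) (i : Fin g) :
    lam M c i = c i • PP p + EE p (M.mulVec (iv c) i) := rfl

theorem lam_inj {c d : Fin g → ℤ} (h : lam M c = lam M d) : c = d := by
  funext i
  exact (PE_inj p (congrFun h i)).1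

theorem mact_EV (γ : Matrix (Fin g) (Fin g) ℤ) (v : Fin g → ℤ_[p]) :
    mact γ (EV v) = EV ((im γ).mulVec v) := by
  funext i
  rw [mact_apply, EV_apply]
  simp only [Matrix.mulVec, dotProduct, im_apply, map_sum]
  refine Finset.sum_congr rfl fun j _ => ?_
  rw [EV_apply, ← map_zsmul, zsmul_eq_mul]

theorem mact_lam (γ : Matrix (Fin g) (Fin g) ℤ) (c : Fin g → ℤ) :
    mact γ (lam M c) = lam M (γ.mulVec c) + EV ((im γ * M - M * im γ).mulVec (iv c)) := by
  funext i
  rw [mact_apply, Pi.add_apply, lam_apply, EV_apply, ← im_mulVec, Matrix.sub_mulVec,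
    ← Matrix.mulVec_mulVec, ← Matrix.mulVec_mulVec, Pi.sub_apply, map_sub]
  have h1 : ∑ j, γ i j • lam M c j = (γ.mulVec c i) • PP p +
      EE p ((im γ).mulVec (M.mulVec (iv c)) i) := by
    have h2 : ∀ j, γ i j • lam M c j = zmultiplesHom _ (PP p) (γ i j * c j) +
        γ i j • EE p (M.mulVec (iv c) j) := by
      intro j
      rw [lam_apply, zsmul_add, zmultiplesHom_apply, mul_zsmul]
    rw [Finset.sum_congr rfl fun j _ => h2 j, Finset.sum_add_distrib, ← map_sum,
      zmultiplesHom_apply]
    congr 1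
    have h3 := congrFun (mact_EV γ (M.mulVec (iv c))) i
    rw [mact_apply, EV_apply] at h3
    exact h3
  rw [h1]
  abel

/-- the period matrix -/
def perM (i j : Fin g) : ℚ_[p]ˣ := ((if i = j then (1 : ℤ) else 0) • PP p + EE p (M i j)).toMul

theorem perM_norm (i j : Fin g) : ‖((perM M i j : ℚ_[p]ˣ) : ℚ_[p])‖ =
    (p : ℝ) ^ (-(if i = j then (1 : ℤ) else 0)) := PP_norm p _ _

theorem prod_one_pow (i j : Fin g) :
    ∏ k, perM M i k ^ (1 : Matrix (Fin g) (Fin g) ℤ) j k = perM M i j := by
  rw [Finset.prod_eq_single j]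
  · rw [Matrix.one_apply_eq, zpow_one]
  · intro k _ hk
    rw [Matrix.one_apply_ne (Ne.symm hk), zpow_zero]
  · intro h
    exact absurd (Finset.mem_univ _) h

/-- the abelian variety over `ℚ_p` with periods `p ^ δ_{ij} (1 + p) ^ M_{ij}`, with its principal
polarisation -/
def exA (hM : M.transpose = M) : UAV p ℚ_[p] g where
  per := perM M
  pol := 1
  symm := by
    intro i j
    rw [prod_one_pow, prod_one_pow]
    unfold perM
    have h1 : M i j = M j i := by
      conv_lhs => rw [← hM]
      rfl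
    have h2 : (if i = j then (1 : ℤ) else 0) = if j = i then 1 else 0 := by
      by_cases h : i = j
      · rw [if_pos h, if_pos h.symm]
      · rw [if_neg h, if_neg (Ne.symm h)]
    rw [h1, h2]
  pos := by
    intro c hc
    simp only [prod_one_pow]
    rw [Algebra.norm_self, MonoidHom.id_apply, Units.coe_prod, norm_prod]
    have h1 : ∀ i, ‖((∏ j, perM M i j ^ (c i * c j) : ℚ_[p]ˣ) : ℚ_[p])‖ =
        (p : ℝ) ^ (-(c i * c i)) := by
      intro i
      rw [Units.coe_prod, norm_prod, Finset.prod_eq_single i]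
      · rw [Units.val_zpow_eq_zpow_val, norm_zpow, perM_norm, if_pos rfl, ← zpow_mul]
        congr 1
        ring
      · intro j _ hj
        rw [Units.val_zpow_eq_zpow_val, norm_zpow, perM_norm, if_neg (Ne.symm hj), neg_zero,
          zpow_zero, one_zpow]
      · intro h
        exact absurd (Finset.mem_univ _) h
    rw [Finset.prod_congr rfl fun i _ => h1 i]
    have hp1 : (1 : ℝ) < p := by exact_mod_cast hp.out.one_lt
    have h2 : ∏ i : Fin g, (1 : ℝ) = 1 := by simp
    rw [← h2]
    refine Finset.prod_lt_prod (fun i _ => zpow_pos (by linarith) _) (fun i _ => ?_) ?_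
    · exact zpow_le_one_of_nonpos₀ hp1.le (by nlinarith [mul_self_nonneg (c i)])
    · obtain ⟨i, hi⟩ := Function.ne_iff.1 hc
      refine ⟨i, Finset.mem_univ _, zpow_lt_one_of_neg₀ hp1 ?_⟩
      have : 0 < c i * c i := mul_self_pos.2 hi
      omega

variable {M}

theorem exA_lat (hM : M.transpose = M) : (exA M hM).lat = (lam M).range := by
  have hrow : ∀ i, (fun j => Additive.ofMul ((exA M hM).per i j)) = lam M (Pi.single i 1) := by
    intro i
    funext j
    have h1 : M.mulVec (iv (Pi.single i 1)) j = M i j := by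
      have h3 : (iv (Pi.single i 1 : Fin g → ℤ) : Fin g → ℤ_[p]) = Pi.single i 1 := by
        funext k
        rw [iv_apply]
        by_cases h : k = i
        · subst h
          simp
        · rw [Pi.single_eq_of_ne h, Pi.single_eq_of_ne h, Int.cast_zero]
      rw [h3, Matrix.mulVec_single_one]
      show M j i = M i j
      conv_lhs => rw [← hM]
      rfl
    rw [lam_apply, h1]
    show (if i = j then (1 : ℤ) else 0) • PP p + EE p (M i j) = _
    congr 2
    by_cases h : i = j
    · subst h
      simp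
    · rw [if_neg h, Pi.single_eq_of_ne (Ne.symm h)]
  apply le_antisymm
  · rw [UAV.lat, AddSubgroup.closure_le]
    rintro _ ⟨i, rfl⟩
    exact ⟨Pi.single i 1, (hrow i).symm⟩
  · rintro _ ⟨c, rfl⟩
    have h1 : c = ∑ i, c i • (Pi.single i 1 : Fin g → ℤ) := by
      funext j
      rw [Finset.sum_apply, Finset.sum_eq_single j]
      · simp
      · intro i _ hi
        rw [Pi.smul_apply, Pi.single_eq_of_ne (Ne.symm hi), smul_zero]
      · intro h
        exact absurd (Finset.mem_univ _) h
    rw [h1, map_sum]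
    refine AddSubgroup.sum_mem _ fun i _ => ?_
    rw [map_zsmul]
    have h2 : lam M (Pi.single i 1) ∈ (exA M hM).lat := by
      rw [← hrow i]
      exact AddSubgroup.subset_closure ⟨i, rfl⟩
    exact AddSubgroup.zsmul_mem _ h2 _

/-- the endomorphisms of the lattice commute with `M` -/
theorem exA_End (hM : M.transpose = M) {γ : Matrix (Fin g) (Fin g) ℤ}
    (hγ : (exA M hM).IsEnd γ) : im γ * M = M * im γ := by
  have h1 : ∀ i, (im γ * M - M * im γ).mulVec (Pi.single i 1) = 0 := by
    intro i
    have h2 : lam M (Pi.single i 1) ∈ (exA M hM).lat := by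
      rw [exA_lat]
      exact ⟨_, rfl⟩
    have h3 := hγ _ h2
    rw [exA_lat] at h3
    obtain ⟨d, hd⟩ := h3
    rw [mact_lam] at hd
    have h4 : (iv (Pi.single i 1 : Fin g → ℤ) : Fin g → ℤ_[p]) = Pi.single i 1 := by
      funext k
      rw [iv_apply]
      by_cases h : k = i
      · subst h
        simp
      · rw [Pi.single_eq_of_ne h, Pi.single_eq_of_ne h, Int.cast_zero]
    rw [h4] at hd
    have h5 : ∀ j, d j = γ.mulVec (Pi.single i 1) j ∧ M.mulVec (iv d) j =
        M.mulVec (iv (γ.mulVec (Pi.single i 1))) j +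
          (im γ * M - M * im γ).mulVec (Pi.single i 1) j := by
      intro j
      have h6 := congrFun hd j
      rw [Pi.add_apply, lam_apply, lam_apply, EV_apply, add_assoc, ← map_add] at h6
      exact PE_inj p h6
    have h6 : d = γ.mulVec (Pi.single i 1) := funext fun j => (h5 j).1
    funext j
    have h7 := (h5 j).2
    rw [h6] at h7
    simpa using h7
  have h2 : im γ * M - M * im γ = 0 := by
    ext j i
    have h3 := congrFun (h1 i) j
    rw [Matrix.mulVec_single_one] at h3
    exact h3
  exact sub_eq_zero.1 h2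

end

end Pool.Agent.L0h28.TD
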