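import Pool.Agent.L0h28.TD.Main

/-! MP_b74fdd_ag: existence of generic symmetric matrices over `ℤ_p`, and the conclusion -/

set_option autoImplicit false
open scoped TensorProduct Cardinal

namespace Pool.Agent.L0h28.TD

noncomputable section

variable (p : ℕ) [hp : Fact p.Prime]

/-- `ℤ_p` contains finite families of any size that are linearly independent over `ℤ` -/
theorem ex_indep (ι : Type) [Fintype ι] : ∃ x : ι → ℤ_[p], ∀ c : ι → ℤ,
    ∑ s, (c s : ℤ_[p]) * x s = 0 → ∀ s, c s = 0 := by
  classical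
  let B := Module.Basis.ofVectorSpace ℚ ℚ_[p]
  have hinf : Infinite (Module.Basis.ofVectorSpaceIndex ℚ ℚ_[p]) := by
    rw [← not_finite_iff_infinite]
    intro hfin
    have h1 : Countable ℚ_[p] := by
      have : Fintype (Module.Basis.ofVectorSpaceIndex ℚ ℚ_[p]) := Fintype.ofFinite _
      exact (B.equivFun.toEquiv).countable_iff.2 inferInstance
    have h2 := continuum_le_cardinal_of_nontriviallyNormedField ℚ_[p]
    have h3 : #ℚ_[p] ≤ ℵ₀ := Cardinal.mk_le_aleph0_iff.2 h1
    exact absurd (h2.trans h3) (not_le.2 Cardinal.aleph0_lt_continuum)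
  obtain ⟨e⟩ : Nonempty (ι ↪ Module.Basis.ofVectorSpaceIndex ℚ ℚ_[p]) := by
    refine ⟨(Fintype.equivFin ι).toEmbedding.trans
      (Fin.valEmbedding.trans (Infinite.natEmbedding _))⟩
  set y : ι → ℚ_[p] := fun i => B (e i) with hy
  have hyi : LinearIndependent ℚ y := B.linearIndependent.comp e e.injective
  -- a common denominator
  obtain ⟨N, hN⟩ : ∃ N : ℕ, ∀ i, ‖(p : ℚ_[p]) ^ N * y i‖ ≤ 1 := by
    have h1 : ∀ i, ∃ N : ℕ, ‖(p : ℚ_[p]) ^ N * y i‖ ≤ 1 := by
      intro i
      have hp1 : ‖(p : ℚ_[p])‖ < 1 := Padic.norm_p_lt_one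
      obtain ⟨N, hN⟩ := exists_pow_lt_of_lt_one (by positivity : (0:ℝ) < 1 / (‖y i‖ + 1)) hp1
      refine ⟨N, ?_⟩
      rw [norm_mul, norm_pow]
      have h2 : 0 < ‖y i‖ + 1 := by positivity
      rw [lt_div_iff₀ h2] at hN
      nlinarith [norm_nonneg (y i), pow_nonneg (norm_nonneg (p : ℚ_[p])) N]
    choose N hN using h1
    refine ⟨Finset.univ.sup N, fun i => ?_⟩
    have h2 : N i ≤ Finset.univ.sup N := Finset.le_sup (Finset.mem_univ i)
    obtain ⟨d, hd⟩ := Nat.exists_eq_add_of_le h2
    rw [hd, pow_add, mul_right_comm, norm_mul, norm_pow]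
    have hp1 : ‖(p : ℚ_[p])‖ ^ d ≤ 1 := pow_le_one₀ (norm_nonneg _) Padic.norm_p_lt_one.le
    exact mul_le_one₀ (hN i) (by positivity) hp1
  set X : ι → ℤ_[p] := fun i => ⟨(p : ℚ_[p]) ^ N * y i, hN i⟩ with hX
  have hXv : ∀ i, ((X i : ℤ_[p]) : ℚ_[p]) = (p : ℚ_[p]) ^ N * y i := fun i => rfl
  refine ⟨X, fun c hc => ?_⟩
  have h1 : ((∑ s, (c s : ℤ_[p]) * X s : ℤ_[p]) : ℚ_[p]) = 0 := by
    rw [hc]
    rfl
  have h2 : (p : ℚ_[p]) ^ N * ∑ s, ((c s : ℚ)) • y s = 0 := by
    rw [← h1, Finset.mul_sum, PadicInt.coe_sum]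
    refine Finset.sum_congr rfl fun s _ => ?_
    rw [PadicInt.coe_mul, PadicInt.coe_intCast, Rat.smul_def, Rat.cast_intCast, hXv]
    ring
  have hp0 : (p : ℚ_[p]) ^ N ≠ 0 := pow_ne_zero _ (by exact_mod_cast hp.out.ne_zero)
  have h3 := (mul_eq_zero.1 h2).resolve_left hp0
  intro s
  have h4 := (Fintype.linearIndependent_iff.1 hyi) (fun s => (c s : ℚ)) h3 s
  exact_mod_cast h4

/-- a symmetric matrix over `ℤ_p` which commutes with no integral matrices but the scalars -/
theorem ex_matrix (g : ℕ) : ∃ M : Matrix (Fin g) (Fin g) ℤ_[p], M.transpose = M ∧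
    (∀ i j, M i j ≠ 0) ∧
    ∀ γ : Matrix (Fin g) (Fin g) ℤ, im γ * M = M * im γ → ∃ n : ℤ, γ = n • 1 := by
  classical
  obtain ⟨x, hx⟩ := ex_indep p (Sym2 (Fin g))
  have hx0 : ∀ s, x s ≠ 0 := by
    intro s hs
    have h1 := hx (fun t => if t = s then 1 else 0) (by
      rw [Finset.sum_eq_single s]
      · rw [hs, mul_zero]
      · intro t _ ht
        rw [if_neg ht, Int.cast_zero, zero_mul]
      · intro h
        exact absurd (Finset.mem_univ _) h) s
    rw [if_pos rfl] at h1
    exact one_ne_zero h1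
  refine ⟨Matrix.of fun i j => x s(i, j), ?_, fun i j => hx0 _, fun γ hγ => ?_⟩
  · ext i j
    show x s(j, i) = x s(i, j)
    rw [Sym2.eq_swap]
  · have h1 : ∀ i j, ∀ s : Sym2 (Fin g), (∑ k, if s(k, j) = s then γ i k else 0) -
        (∑ k, if s(i, k) = s then γ k j else 0) = 0 := by
      intro i j
      refine hx _ ?_
      have h2 := congrFun (congrFun hγ i) j
      rw [Matrix.mul_apply, Matrix.mul_apply] at h2
      have h3 : ∀ f : Fin g → Sym2 (Fin g), ∀ a : Fin g → ℤ,
          ∑ s, ((∑ k, if f k = s then a k else 0 : ℤ) : ℤ_[p]) * x s =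
            ∑ k, (a k : ℤ_[p]) * x (f k) := by
        intro f a
        push_cast
        simp only [Finset.sum_mul]
        rw [Finset.sum_comm]
        refine Finset.sum_congr rfl fun k _ => ?_
        rw [Finset.sum_eq_single (f k)]
        · rw [if_pos rfl]
        · intro s _ hs
          rw [if_neg (Ne.symm hs), zero_mul]
        · intro h
          exact absurd (Finset.mem_univ _) h
      simp only [Int.cast_sub, sub_mul]
      rw [Finset.sum_sub_distrib, h3, h3, sub_eq_zero]
      refine h2.trans ?_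
      refine Finset.sum_congr rfl fun k _ => ?_
      rw [im_apply, Matrix.of_apply]
      ring
    have hoff : ∀ i j, i ≠ j → γ i j = 0 := by
      intro i j hij
      have h2 := h1 i j s(j, j)
      rw [Finset.sum_eq_single j, if_pos rfl, Finset.sum_eq_zero, sub_zero] at h2
      · exact h2
      · intro k _
        rw [if_neg]
        intro h
        rw [Sym2.eq_iff] at h
        rcases h with h | h
        · exact hij h.1
        · exact hij h.1
      · intro k _ hk
        rw [if_neg]
        intro h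
        rw [Sym2.eq_iff] at h
        rcases h with h | h
        · exact hk h.1
        · exact hk h.1
      · intro h
        exact absurd (Finset.mem_univ _) h
    have hdiag : ∀ i j, i ≠ j → γ i i = γ j j := by
      intro i j hij
      have h2 := h1 i j s(i, j)
      rw [Finset.sum_eq_single i, if_pos rfl, Finset.sum_eq_single j, if_pos rfl] at h2
      · exact sub_eq_zero.1 h2
      · intro k _ hk
        rw [if_neg]
        intro h
        rw [Sym2.eq_iff] at h
        rcases h with h | h
        · exact hk h.2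
        · exact hij h.1
      · intro h
        exact absurd (Finset.mem_univ _) h
      · intro k _ hk
        rw [if_neg]
        intro h
        rw [Sym2.eq_iff] at h
        rcases h with h | h
        · exact hk h.1
        · exact hij h.2.symm
      · intro h
        exact absurd (Finset.mem_univ _) h
    rcases Nat.eq_zero_or_pos g with hg | hg
    · subst hg
      exact ⟨0, Subsingleton.elim _ _⟩
    · refine ⟨γ ⟨0, hg⟩ ⟨0, hg⟩, ?_⟩
      ext i j
      rw [Matrix.smul_apply, smul_eq_mul]
      by_cases hij : i = j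
      · subst hij
        rw [Matrix.one_apply_eq, mul_one]
        by_cases h0 : i = ⟨0, hg⟩
        · rw [h0]
        · exact hdiag _ _ h0
      · rw [Matrix.one_apply_ne hij, mul_zero]
        exact hoff i j hij

/-- **For every prime `p` and every `g ≥ 2`** there is a principally polarised abelian variety `A` of
dimension `g` over `ℚ_p` with split totally multiplicative reduction, `End(A) = ℤ`, for which the
natural map `End(A) ⊗ ℚ_p → End_G(V_p(A))` is not surjective -/
theorem main (g : ℕ) (hg : 2 ≤ g) : ∃ A : UAV p ℚ_[p] g, A.pol = 1 ∧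
    (∀ γ, A.IsEnd γ ↔ ∃ n : ℤ, γ = n • 1) ∧ ¬ A.NatSurjective := by
  obtain ⟨M, hM, hM0, hMc⟩ := ex_matrix p g
  have hE : ∀ γ, (exA M hM).IsEnd γ → ∃ n : ℤ, γ = n • 1 := fun γ hγ => hMc γ (exA_End hM hγ)
  refine ⟨exA M hM, rfl, fun γ => ⟨hE γ, ?_⟩, fun hN => ?_⟩
  · rintro ⟨n, rfl⟩ z hz
    have h1 : mact (n • 1) z = n • z := by
      rw [mact_msmul]
      congr 1
      funext i
      rw [mact_apply, Finset.sum_eq_single i]
      · rw [Matrix.one_apply_eq, one_smul]
      · intro j _ hj
        rw [Matrix.one_apply_ne (Ne.symm hj), zero_smul]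
      · intro h
        exact absurd (Finset.mem_univ _) h
    rw [h1]
    exact (exA M hM).lat.zsmul_mem hz n
  · obtain ⟨s, hs⟩ := inImage_scalar (exA M hM) hE _ _ (hN (Phi hM) (Phi_gal hM))
    have h01 : (⟨0, by omega⟩ : Fin g) ≠ ⟨1, by omega⟩ := by
      intro h
      exact absurd (congrArg Fin.val h) (by norm_num)
    exact Phi_ne hM _ _ h01 (hM0 _ _) s hs

end

end Pool.Agent.L0h28.TD
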