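import Pool.Agent.L0h28.TD.Ex

/-! MP_b74fdd_ag: the additional endomorphism of the Tate module, on the levels `A[p^n]` -/

set_option autoImplicit false
open scoped TensorProduct

namespace Pool.Agent.L0h28.TD

noncomputable section

variable {p : ℕ} [hp : Fact p.Prime] {g : ℕ} (M : Matrix (Fin g) (Fin g) ℤ_[p])

omit hp in
theorem mact_madd {N : Type*} [AddCommGroup N] (γ δ : Matrix (Fin g) (Fin g) ℤ) (z : Fin g → N) :
    mact (γ + δ) z = mact γ z + mact δ z := by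
  funext i
  show ∑ j, (γ + δ) i j • z j = ∑ j, γ i j • z j + ∑ j, δ i j • z j
  simp [add_smul, Finset.sum_add_distrib]

omit hp in
theorem mact_msmul {N : Type*} [AddCommGroup N] (k : ℤ) (γ : Matrix (Fin g) (Fin g) ℤ)
    (z : Fin g → N) : mact (k • γ) z = k • mact γ z := by
  funext i
  show ∑ j, (k • γ) i j • z j = k • ∑ j, γ i j • z j
  rw [Finset.smul_sum]
  exact Finset.sum_congr rfl fun j _ => by rw [Matrix.smul_apply, smul_eq_mul, mul_smul]

/-- approximation of `M` by integral matrices -/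
def al (n : ℕ) : Matrix (Fin g) (Fin g) ℤ := fun i j => ((M i j).appr n : ℤ)

theorem ex_rho (n : ℕ) : ∃ ρ : Matrix (Fin g) (Fin g) ℤ_[p],
    M = im (al M n) + ((p : ℤ_[p]) ^ n) • ρ := by
  have h : ∀ i j, ∃ r : ℤ_[p], M i j - ((M i j).appr n : ℤ_[p]) = (p : ℤ_[p]) ^ n * r := fun i j =>
    Ideal.mem_span_singleton.1 (PadicInt.appr_spec n (M i j))
  choose r hr using h
  refine ⟨r, ?_⟩
  ext i j
  show M i j = (((M i j).appr n : ℤ) : ℤ_[p]) + (p : ℤ_[p]) ^ n * r i j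
  rw [← hr]
  push_cast
  ring

/-- the quotient -/
def rho (n : ℕ) : Matrix (Fin g) (Fin g) ℤ_[p] := (ex_rho M n).choose

theorem rho_spec (n : ℕ) : M = im (al M n) + ((p : ℤ_[p]) ^ n) • rho M n := (ex_rho M n).choose_spec

/-- the commutator -/
def CC (n : ℕ) : Matrix (Fin g) (Fin g) ℤ_[p] := rho M n * M - M * rho M n

theorem comm_id (n : ℕ) : im (al M n) * M - M * im (al M n) = -(((p : ℤ_[p]) ^ n) • CC M n) := by
  have h : im (al M n) = M - ((p : ℤ_[p]) ^ n) • rho M n := eq_sub_of_add_eq (rho_spec M n).symm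
  rw [h, CC, sub_mul, mul_sub, smul_sub, Matrix.smul_mul, Matrix.mul_smul]
  abel

theorem ex_eta (n : ℕ) : ∃ η : Matrix (Fin g) (Fin g) ℤ,
    al M (n + 1) = al M n + ((p : ℤ) ^ n) • η := by
  have h : ∀ i j, ∃ r : ℤ, ((M i j).appr (n + 1) : ℤ) - ((M i j).appr n : ℤ) = (p : ℤ) ^ n * r := by
    intro i j
    have h1 := (M i j).dvd_appr_sub_appr n (n + 1) (Nat.le_succ n)
    obtain ⟨r, hr⟩ := h1
    refine ⟨r, ?_⟩
    have h2 := (M i j).appr_mono (Nat.le_succ n)
    have h3 : ((((M i j).appr (n + 1) - (M i j).appr n : ℕ)) : ℤ) = ((p ^ n * r : ℕ) : ℤ) := by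
      rw [hr]
    rw [Nat.cast_sub h2] at h3
    rw [h3]
    push_cast
    rfl
  choose r hr using h
  refine ⟨r, ?_⟩
  ext i j
  show ((M i j).appr (n + 1) : ℤ) = ((M i j).appr n : ℤ) + (p : ℤ) ^ n * r i j
  rw [← hr]
  ring

theorem CC_step (n : ℕ) (η : Matrix (Fin g) (Fin g) ℤ)
    (h : al M (n + 1) = al M n + ((p : ℤ) ^ n) • η) :
    CC M n = (im η * M - M * im η) + (p : ℤ_[p]) • CC M (n + 1) := by
  have h1 : rho M n = im η + (p : ℤ_[p]) • rho M (n + 1) := by
    have h2 := rho_spec M n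
    have h3 := rho_spec M (n + 1)
    have h4 : (im (al M (n + 1)) : Matrix (Fin g) (Fin g) ℤ_[p]) =
        im (al M n) + ((p : ℤ_[p]) ^ n) • im η := by
      rw [h]
      ext i j
      show ((al M n i j + (p : ℤ) ^ n * η i j : ℤ) : ℤ_[p]) =
        (al M n i j : ℤ_[p]) + (p : ℤ_[p]) ^ n * (η i j : ℤ_[p])
      push_cast
      rfl
    rw [h4] at h3
    ext i j
    have h5 := congrFun (congrFun h2 i) j
    have h6 := congrFun (congrFun h3 i) j
    simp only [Matrix.add_apply, Matrix.smul_apply, smul_eq_mul] at h5 h6 ⊢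
    have hp0 : ((p : ℤ_[p]) ^ n) ≠ 0 := pow_ne_zero _ (by exact_mod_cast hp.out.ne_zero)
    apply mul_left_cancel₀ hp0
    have h7 : im (al M n) i j + (p : ℤ_[p]) ^ n * rho M n i j =
        im (al M n) i j + (p : ℤ_[p]) ^ n * im η i j + (p : ℤ_[p]) ^ (n + 1) * rho M (n + 1) i j := by
      rw [← h5, ← h6]
    linear_combination h7
  unfold CC
  rw [h1, add_mul, mul_add, smul_sub, Matrix.smul_mul, Matrix.mul_smul]
  abel

variable {L : Type*} [Field L] [Algebra ℚ_[p] L]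

/-- the inclusion `T(ℚ_p) → T(L)` -/
def inc (L : Type*) [Field L] [Algebra ℚ_[p] L] : Tor g ℚ_[p] →+ Tor g L :=
  Tor.map (algebraMap ℚ_[p] L)

theorem inc_inj {z w : Tor g ℚ_[p]} (h : inc L z = inc L w) : z = w := by
  funext i
  apply Additive.toMul.injective
  apply Units.ext
  have h1 := congrArg (fun x : Additive Lˣ => ((x.toMul : Lˣ) : L)) (congrFun h i)
  exact (algebraMap ℚ_[p] L).injective h1

theorem mact_inc (γ : Matrix (Fin g) (Fin g) ℤ) (z : Tor g ℚ_[p]) :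
    mact γ (inc L z) = inc L (mact γ z) := (map_mact _ _ _).symm

/-- the level map before passing to the quotient -/
def fl (n : ℕ) (z : Tor g L) (c : Fin g → ℤ) : Tor g L :=
  mact (al M n) z + inc L (EV ((CC M n).mulVec (iv c)))

theorem fl_add (n : ℕ) (z w : Tor g L) (c d : Fin g → ℤ) :
    fl M n (z + w) (c + d) = fl M n z c + fl M n w d := by
  unfold fl
  rw [map_add, map_add, Matrix.mulVec_add, map_add, map_add]
  abel

theorem EV_pow (k : ℕ) (v : Fin g → ℤ_[p]) : (EV (((p : ℤ_[p]) ^ k) • v) : Tor g ℚ_[p]) =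
    (p ^ k) • EV v := by
  rw [← map_nsmul]
  congr 1
  funext i
  rw [Pi.smul_apply, Pi.smul_apply, smul_eq_mul, nsmul_eq_mul]
  push_cast
  rfl

theorem al_lam (n : ℕ) (d : Fin g → ℤ) : mact (al M n) (inc L (lam M d)) +
    inc L ((p ^ n) • EV ((CC M n).mulVec (iv d))) = inc L (lam M ((al M n).mulVec d)) := by
  rw [mact_inc, mact_lam, comm_id, Matrix.neg_mulVec, Matrix.smul_mulVec, map_neg, EV_pow,
    ← map_add]
  congr 1
  abel

theorem fl_lam (n : ℕ) (d : Fin g → ℤ) :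
    fl M n (inc L (lam M d)) ((p ^ n) • d) = inc L (lam M ((al M n).mulVec d)) := by
  unfold fl
  rw [← al_lam]
  congr 2
  have h1 : (iv ((p ^ n) • d) : Fin g → ℤ_[p]) = ((p : ℤ_[p]) ^ n) • iv d := by
    rw [map_nsmul]
    funext i
    rw [Pi.smul_apply, Pi.smul_apply, smul_eq_mul, nsmul_eq_mul]
    push_cast
    rfl
  rw [h1, Matrix.mulVec_smul, EV_pow]

theorem fl_tors (n : ℕ) (z : Tor g L) (c : Fin g → ℤ) (h : (p ^ n) • z = inc L (lam M c)) :
    (p ^ n) • fl M n z c = inc L (lam M ((al M n).mulVec c)) := by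
  unfold fl
  rw [nsmul_add, ← map_nsmul, ← map_nsmul, h, al_lam]

theorem fl_step (n : ℕ) (z : Tor g L) (c : Fin g → ℤ)
    (h : (p ^ (n + 1)) • z = inc L (lam M c)) :
    ∃ d, p • fl M (n + 1) z c = fl M n (p • z) c + inc L (lam M d) := by
  obtain ⟨η, hη⟩ := ex_eta M n
  refine ⟨η.mulVec c, ?_⟩
  unfold fl
  have h1 : (p : ℕ) • mact (al M (n + 1)) z = mact (al M n) (p • z) + mact η (inc L (lam M c)) := by
    rw [← h, hη, mact_madd]
    have h2 : mact (((p : ℤ) ^ n) • η) z = (p ^ n) • mact η z := by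
      rw [mact_msmul, ← Nat.cast_pow, natCast_zsmul]
    have h3 : mact η ((p ^ (n + 1)) • z) = (p : ℕ) • ((p ^ n) • mact η z) := by
      rw [map_nsmul, smul_smul, pow_succ, mul_comm p]
    rw [h2, h3, nsmul_add, ← map_nsmul]
  have h4 : (EV (((p : ℤ_[p]) • CC M (n + 1)).mulVec (iv c)) : Tor g ℚ_[p]) =
      p • EV ((CC M (n + 1)).mulVec (iv c)) := by
    have h5 := EV_pow (p := p) 1 ((CC M (n + 1)).mulVec (iv c))
    rw [pow_one, pow_one] at h5
    rw [Matrix.smul_mulVec, h5]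
  have h6 : inc L (p • EV ((CC M (n + 1)).mulVec (iv c))) =
      p • inc L (EV ((CC M (n + 1)).mulVec (iv c))) := map_nsmul _ _ _
  rw [nsmul_add, h1, CC_step M n η hη, mact_inc, mact_lam, Matrix.add_mulVec, map_add, map_add,
    map_add, h4, h6]
  abel

theorem fl_gal (σ : L ≃ₐ[ℚ_[p]] L) (n : ℕ) (z : Tor g L) (c : Fin g → ℤ) :
    fl M n (Tor.map (σ : L →+* L) z) c = Tor.map (σ : L →+* L) (fl M n z c) := by
  unfold fl
  rw [map_add, map_mact]
  congr 1
  funext i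
  apply Additive.toMul.injective
  apply Units.ext
  show algebraMap ℚ_[p] L _ = σ (algebraMap ℚ_[p] L _)
  rw [AlgEquiv.commutes]

theorem gal_inc (σ : L ≃ₐ[ℚ_[p]] L) (z : Tor g ℚ_[p]) :
    Tor.map (σ : L →+* L) (inc L z) = inc L z := by
  funext i
  apply Additive.toMul.injective
  apply Units.ext
  show σ (algebraMap ℚ_[p] L _) = algebraMap ℚ_[p] L _
  rw [AlgEquiv.commutes]

end

end Pool.Agent.L0h28.TD
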