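import Pool.Agent.L0h28.TD.Gen

/-!
MP_b74fdd_ag, Q1: negative answer.

Let `p` be a prime and `g ≥ 2`. There is a principally polarised abelian variety `A` of dimension `g`
over `ℚ_p` with split totally multiplicative reduction such that `End(A) = ℤ` and the natural map
`End(A) ⊗ ℚ_p → End_G(V_p(A))` is not surjective.

Abelian varieties with split totally multiplicative reduction over a finite extension `K` of `ℚ_p`
are given by their uniformisation (Tate, Mumford, Gerritzen, Raynaud): `A = T / Λ` with a split torus
`T = 𝔾_m^g` and a lattice `Λ ⊂ T(K)` satisfying the Riemann conditions; `A(K̄) = T(K̄) / Λ` as Galois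
modules, and `End(A)` is the ring of the endomorphisms of `T` (integral matrices) preserving `Λ`.

The example has the periods `q_{ii} = p (1 + p) ^ m_{ii}` and `q_{ij} = (1 + p) ^ m_{ij}`, where
`M = (m_{ij})` is a symmetric matrix over `ℤ_p` whose entries `m_{ij}`, `i ≤ j`, are linearly
independent over `ℚ`. The endomorphism of `T_p(A)` which is not in the image acts as `M` on the
submodule `T_p(T) = ℤ_p(1)^g` and on the quotient `T_p(A) / T_p(T) = ℤ_p ⊗ Λ`. The reason is that
`H^1(ℚ_p, ℚ_p(1))` has dimension two (valuation and logarithm), so that the extension class of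
`V_p(A)` is given by two matrices over `ℚ_p`.
-/

set_option autoImplicit false

namespace Pool.Agent.Results.MP_b74fdd_ag.LocalTateFails

open Pool.Agent.L0h28.TD

/-- For every prime `p` and every `g ≥ 2` there is an abelian variety `A` of dimension `g` over `ℚ_p`
with split totally multiplicative reduction and a principal polarisation such that `End(A) = ℤ` and
the natural map `End(A) ⊗ ℚ_p → End_G(V_p(A))` is not surjective. -/
theorem result (p : ℕ) [Fact p.Prime] (g : ℕ) (hg : 2 ≤ g) :
    ∃ A : UAV p ℚ_[p] g, A.pol = 1 ∧ (∀ γ, A.IsEnd γ ↔ ∃ n : ℤ, γ = n • 1) ∧ ¬ A.NatSurjective :=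
  main p g hg

end Pool.Agent.Results.MP_b74fdd_ag.LocalTateFails
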