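import Pool.Agent.L0h28.TD.TMap

/-! MP_b74fdd_ag: non-surjectivity of the natural map -/

set_option autoImplicit false
open scoped TensorProduct

namespace Pool.Agent.L0h28.TD

noncomputable section

section TF

variable {p : ℕ} [hp : Fact p.Prime] {A : Type*} [AddCommGroup A]

omit hp in
theorem pow_smul_at (a : Tate p A) (k n : ℕ) : (p ^ k) • a.at (n + k) = a.at n := by
  induction k with
  | zero => rw [pow_zero, one_nsmul, add_zero]
  | succ k ih => rw [pow_succ, mul_nsmul', ← ih, ← a.p_at (n + k), add_assoc]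

/-- Tate modules are torsion-free -/
theorem tate_tf {b : ℤ_[p]} (hb : b ≠ 0) {a : Tate p A} (h : b • a = 0) : a = 0 := by
  have h1 : ((p : ℤ_[p]) ^ b.valuation) • a = 0 := by
    have h2 : ((p : ℤ_[p]) ^ b.valuation) =
        (((PadicInt.unitCoeff hb)⁻¹ : ℤ_[p]ˣ) : ℤ_[p]) * b := by
      symm
      rw [Units.inv_mul_eq_iff_eq_mul]
      exact PadicInt.unitCoeff_spec hb
    rw [h2, mul_smul, h, smul_zero]
  refine Tate.ext fun n => ?_
  have h2 := congrArg (fun t : Tate p A => t.at (n + b.valuation)) h1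
  simp only [Tate.zero_at] at h2
  rw [Tate.smul_at' _ _ _ (p ^ b.valuation) (by push_cast; rw [map_pow, map_natCast]),
    pow_smul_at] at h2
  rw [h2, Tate.zero_at]

theorem one_tmul_zero {t : Tate p A} (h : (1 : ℚ_[p]) ⊗ₜ[ℤ_[p]] t = 0) : t = 0 := by
  have h1 : IsLocalizedModule (nonZeroDivisors ℤ_[p]) (TensorProduct.mk ℤ_[p] ℚ_[p] (Tate p A) 1) :=
    (isLocalizedModule_iff_isBaseChange (nonZeroDivisors ℤ_[p]) ℚ_[p] _).2
      (TensorProduct.isBaseChange ℤ_[p] (Tate p A) ℚ_[p])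
  have h2 : (TensorProduct.mk ℤ_[p] ℚ_[p] (Tate p A) 1) t = 0 := h
  rw [IsLocalizedModule.eq_zero_iff (nonZeroDivisors ℤ_[p])] at h2
  obtain ⟨c, hc⟩ := h2
  exact tate_tf (nonZeroDivisors.ne_zero c.2) hc

end TF

variable {p : ℕ} [hp : Fact p.Prime] {g : ℕ} {M : Matrix (Fin g) (Fin g) ℤ_[p]}
  (hM : M.transpose = M)

/-- the additional endomorphism of `V_p` -/
def Phi : (exA M hM).V (AlgebraicClosure ℚ_[p]) →ₗ[ℚ_[p]] (exA M hM).V (AlgebraicClosure ℚ_[p]) :=
  (fT hM).baseChange ℚ_[p]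

theorem Phi_gal : (exA M hM).IsGal (Phi hM) := by
  intro σ v
  have h := congrArg (fun f => (LinearMap.baseChange ℚ_[p] f) v) (fT_gal hM (p := p) σ)
  simp only [LinearMap.baseChange_comp] at h
  exact h

theorem Phi_tmul (t : Tate p ((exA M hM).Pts (AlgebraicClosure ℚ_[p]))) :
    Phi hM ((1 : ℚ_[p]) ⊗ₜ[ℤ_[p]] t : ℚ_[p] ⊗[ℤ_[p]] Tate p ((exA M hM).Pts
      (AlgebraicClosure ℚ_[p]))) = ((1 : ℚ_[p]) ⊗ₜ[ℤ_[p]] (fT hM t) : ℚ_[p] ⊗[ℤ_[p]]
        Tate p ((exA M hM).Pts (AlgebraicClosure ℚ_[p]))) := rfl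

theorem Tate_int {A : Type*} [AddCommGroup A] (n : ℤ) (f : A →+ A) (hf : ∀ x, f x = n • x) :
    (Tate.map f : Tate p A →ₗ[ℤ_[p]] Tate p A) = (n : ℤ_[p]) • LinearMap.id := by
  refine LinearMap.ext fun a => ?_
  rw [LinearMap.smul_apply, LinearMap.id_apply, Int.cast_smul_eq_zsmul]
  refine Tate.ext fun k => ?_
  rw [Tate.map_at, hf]
  rfl

/-- if `End(A) = ℤ` then the image of the natural map consists of the scalars -/
theorem inImage_scalar {K : Type*} [Field K] [Algebra ℚ_[p] K] (A : UAV p K g)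
    (hE : ∀ γ, A.IsEnd γ → ∃ n : ℤ, γ = n • 1) (L : Type*) [Field L] [Algebra K L]
    (F : A.V L →ₗ[ℚ_[p]] A.V L) (hF : A.InImage F) :
    ∃ s : ℚ_[p], ∀ v, F v = s • v := by
  have key : ∀ γ : A.EndA, ∃ n : ℚ_[p], ∀ v, A.vmap (A.endPts L γ) v = n • v := by
    rintro ⟨γ, hγ⟩
    obtain ⟨n, rfl⟩ := hE γ hγ
    refine ⟨((n : ℤ_[p]) : ℚ_[p]), fun v => ?_⟩
    have h1 : ∀ x, A.endPts L ⟨n • 1, hγ⟩ x = n • x := by
      intro x
      obtain ⟨z, rfl⟩ := A.pr_surj x
      show A.pr L (mact (n • 1) z) = _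
      rw [← map_zsmul]
      congr 1
      funext i
      rw [mact_apply, Finset.sum_eq_single i]
      · rw [Matrix.smul_apply, Matrix.one_apply_eq, smul_eq_mul, mul_one]
        rfl
      · intro j _ hj
        rw [Matrix.smul_apply, Matrix.one_apply_ne (Ne.symm hj), smul_zero, zero_smul]
      · intro h
        exact absurd (Finset.mem_univ _) h
    have h2 : ∀ w : ℚ_[p] ⊗[ℤ_[p]] Tate p (A.Pts L),
        (((n : ℤ_[p]) • (LinearMap.id : Tate p (A.Pts L) →ₗ[ℤ_[p]] Tate p (A.Pts L))).baseChange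
          ℚ_[p]) w = ((n : ℤ_[p]) : ℚ_[p]) • w := by
      intro w
      induction w using TensorProduct.induction_on with
      | zero => simp
      | tmul s t =>
        rw [LinearMap.baseChange_tmul, LinearMap.smul_apply, LinearMap.id_apply,
          TensorProduct.tmul_smul, TensorProduct.smul_tmul', TensorProduct.smul_tmul']
        rfl
      | add x y hx hy => rw [map_add, hx, hy, smul_add]
    unfold UAV.vmap
    rw [Tate_int n _ h1]
    exact h2 v
  obtain ⟨n, s, γ, h⟩ := hF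
  choose t ht using key
  refine ⟨∑ i, s i * t (γ i), fun v => ?_⟩
  rw [h, Finset.sum_smul]
  exact Finset.sum_congr rfl fun i _ => by rw [ht, mul_smul]

/-! ### the roots of unity -/

section Roots

variable {A : Type*} [AddCommGroup A]

omit hp in
theorem tate_ofStep (u : ℕ → A) (h0 : u 0 = 0) (h : ∀ n, p • u (n + 1) = u n) :
    ∀ n, (p ^ n) • u n = 0 ∧ p • u (n + 1) = u n := by
  intro n
  refine ⟨?_, h n⟩
  induction n with
  | zero => rw [h0, nsmul_zero]
  | succ n ih => rw [pow_succ, mul_nsmul', h n, ih]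

theorem ex_root (L : Type*) [Field L] [IsAlgClosed L] [CharZero L] :
    ∃ u : Tate p (Additive Lˣ), u ≠ 0 := by
  have hp0 : (p : L) ≠ 0 := by exact_mod_cast hp.out.ne_zero
  have : NeZero (p : L) := ⟨hp0⟩
  obtain ⟨ζ, hζ⟩ := HasEnoughRootsOfUnity.exists_primitiveRoot L p
  have hζu : ζ ≠ 0 := hζ.ne_zero hp.out.ne_zero
  have hroot : ∀ x : Lˣ, ∃ y : Lˣ, y ^ p = x := by
    intro x
    obtain ⟨y, hy⟩ := IsAlgClosed.exists_pow_nat_eq (x : L) hp.out.pos
    have hy0 : y ≠ 0 := by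
      rintro rfl
      rw [zero_pow hp.out.ne_zero] at hy
      exact x.ne_zero hy.symm
    exact ⟨Units.mk0 y hy0, Units.ext hy⟩
  choose r hr using hroot
  set w : ℕ → Lˣ := fun n => Nat.rec (Units.mk0 ζ hζu) (fun _ x => r x) n with hw
  have hw0 : w 0 = Units.mk0 ζ hζu := rfl
  have hws : ∀ n, w (n + 1) ^ p = w n := fun n => hr _
  set u : ℕ → Additive Lˣ := fun n => Nat.casesOn n 0 (fun n => Additive.ofMul (w n)) with hu
  have hu0 : u 0 = 0 := rfl
  have hus : ∀ n, p • u (n + 1) = u n := by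
    intro n
    cases n with
    | zero =>
      show Additive.ofMul (w 0 ^ p) = 0
      rw [hw0]
      apply Additive.toMul.injective
      apply Units.ext
      show ζ ^ p = 1
      exact hζ.pow_eq_one
    | succ n =>
      show Additive.ofMul (w (n + 1) ^ p) = Additive.ofMul (w n)
      rw [hws]
  refine ⟨Tate.mk u (tate_ofStep u hu0 hus), fun h => ?_⟩
  have h1 := congrArg (fun t : Tate p (Additive Lˣ) => t.at 1) h
  have h2 : Additive.ofMul (w 0) = 0 := h1
  have h3 : w 0 = 1 := h2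
  have h4 : ζ = 1 := by
    have := congrArg (fun x : Lˣ => (x : L)) h3
    exact this
  exact hζ.ne_one hp.out.one_lt h4

end Roots

theorem tt_indep {L : Type*} [Field L] [Algebra ℚ_[p] L] {u : Tate p (Additive Lˣ)} (hu : u ≠ 0)
    (x : Fin g → ℤ_[p]) (h : ∑ k, x k • tt hM k u = 0) (k : Fin g) : x k = 0 := by
  by_contra hx
  apply hu
  apply tate_tf hx
  refine Tate.ext fun n => ?_
  have h1 := congrArg (fun t : Tate p ((exA M hM).Pts L) => t.at n) h
  simp only [Tate.zero_at] at h1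
  rw [Tate.sum_at] at h1
  have h2 : ∀ i, (x i • tt hM i u).at n =
      (exA M hM).pr L (Pi.single i ((x i).appr n • u.at n)) := by
    intro i
    rw [Tate.smul_at' _ _ n _ (appr_zmod n (x i)), tt_at, ← map_nsmul, nsmul_single]
  rw [Finset.sum_congr rfl fun i _ => h2 i, ← map_sum, UAV.pr_eq_zero, mem_latL] at h1
  obtain ⟨c, hc⟩ := h1
  have h3 : (p ^ n) • ∑ i, (Pi.single i ((x i).appr n • u.at n) : Tor g L) = 0 := by
    rw [← Finset.sum_nsmul]
    refine Finset.sum_eq_zero fun i _ => ?_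
    rw [nsmul_single, ← mul_nsmul', mul_comm, mul_nsmul', u.pow_at, nsmul_zero, Pi.single_zero]
  rw [← hc, ← map_nsmul, ← map_nsmul] at h3
  have h4 : (p ^ n) • c = 0 := by
    apply lam_inj M
    apply inc_inj (L := L)
    rw [h3, map_zero, map_zero]
  have h5 : c = 0 := by
    funext i
    have h6 := congrFun h4 i
    rw [Pi.smul_apply, Pi.zero_apply, nsmul_eq_mul] at h6
    have h7 : ((p ^ n : ℕ) : ℤ) ≠ 0 := by exact_mod_cast pow_ne_zero n hp.out.ne_zero
    exact (mul_eq_zero.1 h6).resolve_left h7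
  rw [h5, map_zero, map_zero] at hc
  have h6 := congrFun hc k
  rw [Finset.sum_apply, Finset.sum_eq_single k, Pi.single_eq_same] at h6
  · rw [Tate.smul_at' _ _ n _ (appr_zmod n (x k)), ← h6]
    rfl
  · intro i _ hi
    rw [Pi.single_eq_of_ne (Ne.symm hi)]
  · intro hk
    exact absurd (Finset.mem_univ _) hk

/-- the additional endomorphism is not a scalar -/
theorem Phi_ne (i j : Fin g) (hij : i ≠ j) (hMij : M i j ≠ 0) (s : ℚ_[p])
    (h : ∀ v, Phi hM v = s • v) : False := by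
  obtain ⟨u, hu⟩ := ex_root (p := p) (AlgebraicClosure ℚ_[p])
  have h1 : (1 : ℚ_[p]) ⊗ₜ[ℤ_[p]] (fT hM (tt hM j u)) =
      s • ((1 : ℚ_[p]) ⊗ₜ[ℤ_[p]] (tt hM j u)) := (Phi_tmul hM _).symm.trans (h _)
  rw [fT_tt] at h1
  obtain ⟨a, b, hab⟩ := IsLocalization.exists_mk'_eq (nonZeroDivisors ℤ_[p]) s
  have hb : (b : ℤ_[p]) ≠ 0 := nonZeroDivisors.ne_zero b.2
  have hs : ((b : ℤ_[p]) : ℚ_[p]) * s = ((a : ℤ_[p]) : ℚ_[p]) := by
    rw [← hab, mul_comm]
    exact IsLocalization.mk'_spec ℚ_[p] a b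
  have h2 : (1 : ℚ_[p]) ⊗ₜ[ℤ_[p]] ((b : ℤ_[p]) • ∑ k, M k j • tt hM k u - a • tt hM j u) = 0 := by
    rw [TensorProduct.tmul_sub, TensorProduct.tmul_smul, TensorProduct.tmul_smul, h1,
      TensorProduct.smul_tmul', TensorProduct.smul_tmul', TensorProduct.smul_tmul', sub_eq_zero]
    congr 1
    rw [smul_eq_mul, mul_one]
    show algebraMap ℤ_[p] ℚ_[p] (b : ℤ_[p]) * s = _
    rw [Algebra.smul_def, mul_one]
    exact hs
  have h3 := one_tmul_zero h2
  have h4 : ∑ k, ((b : ℤ_[p]) * M k j - if k = j then a else 0) • tt hM k u = 0 := by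
    rw [← h3, Finset.smul_sum]
    simp only [sub_smul, mul_smul, ite_smul, zero_smul]
    rw [Finset.sum_sub_distrib, Finset.sum_ite_eq' Finset.univ j]
    simp
  have h5 := tt_indep hM hu _ h4 i
  rw [if_neg hij, sub_zero] at h5
  rcases mul_eq_zero.1 h5 with h6 | h6
  · exact hb h6
  · exact hMij h6

end

end Pool.Agent.L0h28.TD
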