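import Pool.Agent.L0h28.TD.Lev

/-! MP_b74fdd_ag: the additional Galois-equivariant endomorphism of the Tate module -/

set_option autoImplicit false
open scoped TensorProduct

namespace Pool.Agent.L0h28.TD

noncomputable section

variable {p : ℕ} [hp : Fact p.Prime] {g : ℕ} {M : Matrix (Fin g) (Fin g) ℤ_[p]}
  (hM : M.transpose = M) {L : Type*} [Field L] [Algebra ℚ_[p] L]

theorem mem_latL {z : Tor g L} : z ∈ (exA M hM).latL L ↔ ∃ c, inc L (lam M c) = z := by
  unfold UAV.latL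
  rw [exA_lat]
  constructor
  · rintro ⟨_, ⟨c, rfl⟩, rfl⟩
    exact ⟨c, rfl⟩
  · rintro ⟨c, rfl⟩
    exact ⟨_, ⟨c, rfl⟩, rfl⟩

theorem pr_lam (c : Fin g → ℤ) : (exA M hM).pr L (inc L (lam M c)) = 0 :=
  (UAV.pr_eq_zero _).2 ((mem_latL hM).2 ⟨c, rfl⟩)

theorem ex_rep (n : ℕ) (x : (exA M hM).Pts L) (hx : (p ^ n) • x = 0) :
    ∃ (z : Tor g L) (c : Fin g → ℤ), (exA M hM).pr L z = x ∧ (p ^ n) • z = inc L (lam M c) := by
  obtain ⟨z, rfl⟩ := UAV.pr_surj _ x
  rw [← map_nsmul, UAV.pr_eq_zero, mem_latL] at hx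
  obtain ⟨c, hc⟩ := hx
  exact ⟨z, c, rfl, hc.symm⟩

open Classical in
/-- the level map -/
def Fn (n : ℕ) (x : (exA M hM).Pts L) : (exA M hM).Pts L :=
  if h : ∃ q : Tor g L × (Fin g → ℤ), (exA M hM).pr L q.1 = x ∧ (p ^ n) • q.1 = inc L (lam M q.2)
  then (exA M hM).pr L (fl M n h.choose.1 h.choose.2) else 0

theorem Fn_pr (n : ℕ) (z : Tor g L) (c : Fin g → ℤ) (h : (p ^ n) • z = inc L (lam M c)) :
    Fn hM n ((exA M hM).pr L z) = (exA M hM).pr L (fl M n z c) := by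
  have h1 : ∃ q : Tor g L × (Fin g → ℤ), (exA M hM).pr L q.1 = (exA M hM).pr L z ∧
      (p ^ n) • q.1 = inc L (lam M q.2) := ⟨(z, c), rfl, h⟩
  unfold Fn
  rw [dif_pos h1]
  obtain ⟨h2, h3⟩ := h1.choose_spec
  generalize h1.choose = q at h2 h3 ⊢
  have h4 : (exA M hM).pr L (q.1 - z) = 0 := by rw [map_sub, h2, sub_self]
  rw [UAV.pr_eq_zero, mem_latL] at h4
  obtain ⟨d, hd⟩ := h4
  have h5 : q.1 = z + inc L (lam M d) := by
    rw [hd]
    abel
  have h6 : q.2 = c + (p ^ n) • d := by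
    apply lam_inj M
    apply inc_inj (L := L)
    rw [← h3, h5, nsmul_add, h, map_add, map_add, map_nsmul, map_nsmul]
  rw [h5, h6, fl_add, fl_lam, map_add, pr_lam, add_zero]

theorem Fn_add (n : ℕ) (x y : (exA M hM).Pts L) (hx : (p ^ n) • x = 0) (hy : (p ^ n) • y = 0) :
    Fn hM n (x + y) = Fn hM n x + Fn hM n y := by
  obtain ⟨z, c, rfl, hz⟩ := ex_rep hM n x hx
  obtain ⟨w, d, rfl, hw⟩ := ex_rep hM n y hy
  rw [← map_add, Fn_pr hM n z c hz, Fn_pr hM n w d hw, Fn_pr hM n (z + w) (c + d), fl_add, map_add]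
  rw [nsmul_add, hz, hw, map_add, map_add]

theorem Fn_zero (n : ℕ) : Fn hM n (0 : (exA M hM).Pts L) = 0 := by
  have h := Fn_add hM n (0 : (exA M hM).Pts L) 0 (nsmul_zero _) (nsmul_zero _)
  rw [add_zero] at h
  exact left_eq_add.1 h

theorem Fn_nsmul (n k : ℕ) (x : (exA M hM).Pts L) (hx : (p ^ n) • x = 0) :
    Fn hM n (k • x) = k • Fn hM n x := by
  induction k with
  | zero => rw [zero_nsmul, zero_nsmul, Fn_zero]
  | succ k ih =>
    rw [succ_nsmul, succ_nsmul, Fn_add hM n _ _ _ hx, ih]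
    rw [← mul_nsmul', mul_comm, mul_nsmul', hx, nsmul_zero]

theorem Fn_tors (n : ℕ) (x : (exA M hM).Pts L) (hx : (p ^ n) • x = 0) :
    (p ^ n) • Fn hM n x = 0 := by
  obtain ⟨z, c, rfl, hz⟩ := ex_rep hM n x hx
  rw [Fn_pr hM n z c hz, ← map_nsmul, fl_tors M n z c hz, pr_lam]

theorem Fn_step (n : ℕ) (x : (exA M hM).Pts L) (hx : (p ^ (n + 1)) • x = 0) :
    p • Fn hM (n + 1) x = Fn hM n (p • x) := by
  obtain ⟨z, c, rfl, hz⟩ := ex_rep hM (n + 1) x hx
  have h1 : (p ^ n) • (p • z) = inc L (lam M c) := by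
    rw [← hz, smul_smul, pow_succ]
  obtain ⟨d, hd⟩ := fl_step M n z c hz
  rw [Fn_pr hM (n + 1) z c hz, ← map_nsmul, ← map_nsmul, Fn_pr hM n (p • z) c h1, hd, map_add,
    pr_lam, add_zero]

theorem Fn_gal (σ : L ≃ₐ[ℚ_[p]] L) (n : ℕ) (x : (exA M hM).Pts L) (hx : (p ^ n) • x = 0) :
    Fn hM n ((exA M hM).gal σ x) = (exA M hM).gal σ (Fn hM n x) := by
  obtain ⟨z, c, rfl, hz⟩ := ex_rep hM n x hx
  rw [Fn_pr hM n z c hz, UAV.gal_pr, UAV.gal_pr, Fn_pr hM n _ c, fl_gal]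
  rw [← map_nsmul, hz, gal_inc]

/-- the endomorphism of the Tate module -/
def fT : Tate p ((exA M hM).Pts L) →ₗ[ℤ_[p]] Tate p ((exA M hM).Pts L) where
  toFun a := Tate.mk (fun n => Fn hM n (a.at n)) (fun n =>
    ⟨Fn_tors hM n _ (a.pow_at n), by rw [Fn_step hM n _ (a.pow_at (n + 1)), a.p_at]⟩)
  map_add' a b := Tate.ext fun n => Fn_add hM n _ _ (a.pow_at n) (b.pow_at n)
  map_smul' z a := Tate.ext fun n => Fn_nsmul hM n _ _ (a.pow_at n)

theorem fT_at (a : Tate p ((exA M hM).Pts L)) (n : ℕ) : (fT hM a).at n = Fn hM n (a.at n) := rfl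

theorem fT_gal (σ : L ≃ₐ[ℚ_[p]] L) :
    fT hM ∘ₗ Tate.map ((exA M hM).gal σ) = Tate.map ((exA M hM).gal σ) ∘ₗ fT hM := by
  refine LinearMap.ext fun a => Tate.ext fun n => ?_
  show Fn hM n ((exA M hM).gal σ (a.at n)) = (exA M hM).gal σ (Fn hM n (a.at n))
  rw [Fn_gal hM σ n _ (a.pow_at n)]

omit hp in
theorem Tate.sum_at {A ι : Type*} [AddCommGroup A] (s : Finset ι) (f : ι → Tate p A) (n : ℕ) :
    (∑ i ∈ s, f i).at n = ∑ i ∈ s, (f i).at n := by
  classical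
  induction s using Finset.induction_on with
  | empty => rfl
  | insert i s hi ih => rw [Finset.sum_insert hi, Finset.sum_insert hi, Tate.add_at, ih]

theorem nsmul_single (k : ℕ) (j : Fin g) (x : Additive Lˣ) :
    k • (Pi.single j x : Tor g L) = Pi.single j (k • x) :=
  (map_nsmul (AddMonoidHom.single (fun _ : Fin g => Additive Lˣ) j) k x).symm

/-- the elements of the Tate module from the roots of unity -/
def tt (j : Fin g) (u : Tate p (Additive Lˣ)) : Tate p ((exA M hM).Pts L) :=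
  Tate.mk (fun n => (exA M hM).pr L (Pi.single j (u.at n))) (fun n => by
    rw [← map_nsmul, ← map_nsmul, nsmul_single, nsmul_single, u.pow_at, u.p_at,
      Pi.single_zero, map_zero]
    exact ⟨rfl, rfl⟩)

theorem tt_at (j : Fin g) (u : Tate p (Additive Lˣ)) (n : ℕ) :
    (tt hM j u).at n = (exA M hM).pr L (Pi.single j (u.at n)) := rfl

theorem fT_tt (j : Fin g) (u : Tate p (Additive Lˣ)) :
    fT hM (tt hM j u) = ∑ i, M i j • tt hM i u := by
  refine Tate.ext fun n => ?_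
  rw [Tate.sum_at, fT_at, tt_at, Fn_pr hM n _ 0]
  · have h1 : ∀ i, (M i j • tt hM i u).at n =
        (exA M hM).pr L (Pi.single i (al M n i j • u.at n)) := by
      intro i
      rw [Tate.smul_at' _ _ n _ (appr_zmod n (M i j)), tt_at, ← map_nsmul, nsmul_single]
      congr 2
    rw [Finset.sum_congr rfl fun i _ => h1 i, ← map_sum]
    congr 1
    unfold fl
    rw [map_zero, Matrix.mulVec_zero, map_zero, map_zero, add_zero]
    funext i
    rw [mact_apply, Finset.sum_apply, Finset.sum_eq_single j, Finset.sum_eq_single i,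
      Pi.single_eq_same, Pi.single_eq_same]
    · intro k _ hk
      rw [Pi.single_eq_of_ne (Ne.symm hk)]
    · intro h
      exact absurd (Finset.mem_univ _) h
    · intro k _ hk
      rw [Pi.single_eq_of_ne hk, smul_zero]
    · intro h
      exact absurd (Finset.mem_univ _) h
  · rw [nsmul_single, u.pow_at, Pi.single_zero, map_zero, map_zero]

end

end Pool.Agent.L0h28.TD
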