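import Mathlib

/-! MP_b74fdd_ag: the Tate module `T_p(A) = lim A[p^n]` of an abelian group `A`, with its
`ℤ_p`-module structure, and `V_p(A)` -/

set_option autoImplicit false
open scoped TensorProduct

namespace Pool.Agent.L0h28.TD

noncomputable section

/-- the Tate module `T_p(A) = lim A[p^n]`: the sequences `(a_n)` with `a_n ∈ A[p^n]` and
`p a_{n+1} = a_n` -/
def TateSub (p : ℕ) (A : Type*) [AddCommGroup A] : AddSubgroup (ℕ → A) where
  carrier := {a | ∀ n, (p ^ n) • a n = 0 ∧ p • a (n + 1) = a n}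
  zero_mem' := by
    intro n
    simp
  add_mem' := by
    intro a b ha hb n
    simp only [Pi.add_apply, smul_add]
    rw [(ha n).1, (hb n).1, (ha n).2, (hb n).2]
    simp
  neg_mem' := by
    intro a ha n
    simp only [Pi.neg_apply, smul_neg]
    rw [(ha n).1, (ha n).2]
    simp

/-- the Tate module -/
def Tate (p : ℕ) (A : Type*) [AddCommGroup A] : Type _ := TateSub p A

section Tate

variable {p : ℕ} {A : Type*} [AddCommGroup A]

instance : AddCommGroup (Tate p A) := AddSubgroup.toAddCommGroup (TateSub p A)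

/-- the components of an element of the Tate module -/
def Tate.at (a : Tate p A) (n : ℕ) : A := a.1 n

theorem Tate.ext {a b : Tate p A} (h : ∀ n, a.at n = b.at n) : a = b :=
  Subtype.ext (funext h)

theorem Tate.pow_at (a : Tate p A) (n : ℕ) : (p ^ n) • a.at n = 0 := (a.2 n).1

theorem Tate.p_at (a : Tate p A) (n : ℕ) : p • a.at (n + 1) = a.at n := (a.2 n).2

/-- constructor -/
def Tate.mk (a : ℕ → A) (h : ∀ n, (p ^ n) • a n = 0 ∧ p • a (n + 1) = a n) : Tate p A := ⟨a, h⟩

theorem Tate.mk_at (a : ℕ → A) (h : ∀ n, (p ^ n) • a n = 0 ∧ p • a (n + 1) = a n) (n : ℕ) :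
    (Tate.mk a h).at n = a n := rfl

theorem Tate.add_at (a b : Tate p A) (n : ℕ) : (a + b).at n = a.at n + b.at n := rfl

theorem Tate.zero_at (n : ℕ) : (0 : Tate p A).at n = 0 := rfl

theorem Tate.neg_at (a : Tate p A) (n : ℕ) : (-a).at n = -a.at n := rfl

theorem smul_congr {n : ℕ} {x : A} (hx : (p ^ n) • x = 0) {k l : ℕ}
    (h : (k : ZMod (p ^ n)) = l) : k • x = l • x := by
  rw [ZMod.natCast_eq_natCast_iff] at h
  rw [nsmul_eq_nsmul_iff_modEq]
  exact h.of_dvd (addOrderOf_dvd_iff_nsmul_eq_zero.2 hx)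

variable [hp : Fact p.Prime]

theorem appr_zmod (n : ℕ) (x : ℤ_[p]) : ((x.appr n : ℕ) : ZMod (p ^ n)) = PadicInt.toZModPow n x :=
  rfl

theorem smul_aux (z : ℤ_[p]) (a : Tate p A) (n : ℕ) :
    (p ^ n) • (z.appr n • a.at n) = 0 ∧ p • (z.appr (n + 1) • a.at (n + 1)) = z.appr n • a.at n := by
  constructor
  · rw [smul_comm, a.pow_at, smul_zero]
  · rw [smul_comm, a.p_at]
    refine smul_congr (a.pow_at n) ?_
    have h := PadicInt.cast_toZModPow n (n + 1) (Nat.le_succ n) z
    rw [appr_zmod, ← h, ← appr_zmod]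
    rw [ZMod.cast_natCast (pow_dvd_pow p (Nat.le_succ n))]

/-- `z ∈ ℤ_p` acts on `A[p^n]` as any integer which is congruent to `z` modulo `p^n` -/
instance : SMul ℤ_[p] (Tate p A) := ⟨fun z a => Tate.mk (fun n => z.appr n • a.at n) (smul_aux z a)⟩

theorem Tate.smul_at (z : ℤ_[p]) (a : Tate p A) (n : ℕ) : (z • a).at n = z.appr n • a.at n := rfl

theorem Tate.smul_at' (z : ℤ_[p]) (a : Tate p A) (n k : ℕ)
    (h : (k : ZMod (p ^ n)) = PadicInt.toZModPow n z) : (z • a).at n = k • a.at n := by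
  rw [Tate.smul_at]
  exact smul_congr (a.pow_at n) ((appr_zmod n z).trans h.symm)

theorem Tate.one_smul' (a : Tate p A) : (1 : ℤ_[p]) • a = a := Tate.ext fun n => by
  rw [Tate.smul_at' 1 a n 1 (by simp), one_smul]

theorem Tate.mul_smul' (x y : ℤ_[p]) (a : Tate p A) : (x * y) • a = x • (y • a) :=
  Tate.ext fun n => by
    rw [Tate.smul_at' (x * y) a n (x.appr n * y.appr n)
      (by rw [Nat.cast_mul, appr_zmod, appr_zmod, map_mul]), mul_smul]
    rfl

theorem Tate.smul_zero' (x : ℤ_[p]) : x • (0 : Tate p A) = 0 := Tate.ext fun n => by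
  rw [Tate.smul_at, Tate.zero_at, smul_zero]

theorem Tate.smul_add' (x : ℤ_[p]) (a b : Tate p A) : x • (a + b) = x • a + x • b :=
  Tate.ext fun n => by
    rw [Tate.smul_at, Tate.add_at, smul_add]
    rfl

theorem Tate.add_smul' (x y : ℤ_[p]) (a : Tate p A) : (x + y) • a = x • a + y • a :=
  Tate.ext fun n => by
    rw [Tate.smul_at' (x + y) a n (x.appr n + y.appr n)
      (by rw [Nat.cast_add, appr_zmod, appr_zmod, map_add]), add_smul]
    rfl

theorem Tate.zero_smul' (a : Tate p A) : (0 : ℤ_[p]) • a = 0 := Tate.ext fun n => by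
  rw [Tate.smul_at' 0 a n 0 (by simp), zero_smul, Tate.zero_at]

instance : Module ℤ_[p] (Tate p A) where
  one_smul := Tate.one_smul'
  mul_smul := Tate.mul_smul'
  smul_zero := Tate.smul_zero'
  smul_add := Tate.smul_add'
  add_smul := Tate.add_smul'
  zero_smul := Tate.zero_smul'

omit hp in
theorem map_aux (f : A →+ A) (a : Tate p A) (n : ℕ) :
    (p ^ n) • f (a.at n) = 0 ∧ p • f (a.at (n + 1)) = f (a.at n) := by
  rw [← map_nsmul, ← map_nsmul, a.pow_at, a.p_at, map_zero]
  exact ⟨rfl, rfl⟩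

omit hp in
theorem map_aux_add (f : A →+ A) (a b : Tate p A) :
    Tate.mk (fun n => f ((a + b).at n)) (map_aux f (a + b)) =
      Tate.mk (fun n => f (a.at n)) (map_aux f a) + Tate.mk (fun n => f (b.at n)) (map_aux f b) :=
  Tate.ext fun _ => map_add f _ _

theorem map_aux_smul (f : A →+ A) (z : ℤ_[p]) (a : Tate p A) :
    Tate.mk (fun n => f ((z • a).at n)) (map_aux f (z • a)) =
      z • Tate.mk (fun n => f (a.at n)) (map_aux f a) :=
  Tate.ext fun _ => map_nsmul f _ _

/-- an additive map `f : A → A` induces a `ℤ_p`-linear map `T_p(f)` -/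
def Tate.map (f : A →+ A) : Tate p A →ₗ[ℤ_[p]] Tate p A where
  toFun a := Tate.mk (fun n => f (a.at n)) (map_aux f a)
  map_add' := map_aux_add f
  map_smul' := map_aux_smul f

theorem Tate.map_at (f : A →+ A) (a : Tate p A) (n : ℕ) : (Tate.map f a).at n = f (a.at n) := rfl

end Tate

end

end Pool.Agent.L0h28.TD
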